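import Mathlib

/-!
# The cup-of-coffee sequence: basic structure
-/

set_option autoImplicit false

namespace Pool.Agent.K7.H86.Cup

/-- The sequence of the problem: `a 1 = 1`, `a 2 = 2`, and for `n ≥ 3` the term `a n` is the least
positive integer which is not a term before and satisfies the two conditions. -/
structure IsCup (a : ℕ → ℕ) : Prop where
  one : a 1 = 1
  two : a 2 = 2
  step : ∀ n, 3 ≤ n → IsLeast {m : ℕ | 0 < m ∧ (∀ i, 1 ≤ i → i < n → a i ≠ m) ∧
    (∀ p, p.Prime → p ∣ a (n - 1) → ¬ p ∣ a (n - 2) → p ∣ m) ∧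
    (∀ p, p.Prime → p ∣ a (n - 1) → p ∣ a (n - 2) → ¬ p ∣ m)} (a n)

/-- the primes of `a n` -/
def P (a : ℕ → ℕ) (n : ℕ) : Finset ℕ := (a n).primeFactors

/-- the new primes of `a n` -/
def N (a : ℕ → ℕ) (n : ℕ) : Finset ℕ := P a n \ P a (n - 1)

variable {a : ℕ → ℕ}

theorem IsCup.pos (h : IsCup a) {n : ℕ} (hn : 1 ≤ n) : 0 < a n := by
  rcases Nat.lt_or_ge n 3 with h3 | h3
  · interval_cases n
    · rw [h.one]; norm_num
    · rw [h.two]; norm_num
  · exact (h.step n h3).1.1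

theorem IsCup.ne (h : IsCup a) {i j : ℕ} (hi : 1 ≤ i) (hij : i < j) : a i ≠ a j := by
  rcases Nat.lt_or_ge j 3 with h3 | h3
  · obtain ⟨rfl, rfl⟩ : i = 1 ∧ j = 2 := by omega
    rw [h.one, h.two]; norm_num
  · exact (h.step j h3).1.2.1 i hi hij

theorem IsCup.inj (h : IsCup a) {i j : ℕ} (hi : 1 ≤ i) (hj : 1 ≤ j) (e : a i = a j) : i = j := by
  rcases lt_trichotomy i j with hlt | heq | hgt
  · exact absurd e (h.ne hi hlt)
  · exact heq
  · exact absurd e.symm (h.ne hj hgt)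

theorem IsCup.memP (h : IsCup a) {n : ℕ} (hn : 1 ≤ n) (p : ℕ) :
    p ∈ P a n ↔ p.Prime ∧ p ∣ a n := by
  unfold P
  rw [Nat.mem_primeFactors]
  constructor
  · rintro ⟨x, y, _⟩; exact ⟨x, y⟩
  · rintro ⟨x, y⟩; exact ⟨x, y, (h.pos hn).ne'⟩

theorem IsCup.P_one (h : IsCup a) : P a 1 = ∅ := by
  unfold P; rw [h.one]; simp

theorem IsCup.N_one (h : IsCup a) : N a 1 = ∅ := by
  unfold N; rw [h.P_one]; simp

theorem N_sub (a : ℕ → ℕ) (n : ℕ) : N a n ⊆ P a n := Finset.sdiff_subset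

/-- the common primes of two consecutive terms are the new primes of the first one -/
theorem IsCup.inter (h : IsCup a) {n : ℕ} (hn : 1 ≤ n) (p : ℕ) :
    (p ∈ P a (n + 1) ∧ p ∈ P a n) ↔ p ∈ N a n := by
  rcases Nat.lt_or_ge n 2 with h2 | h2
  · obtain rfl : n = 1 := by omega
    rw [h.P_one, h.N_one]; simp
  have hst := (h.step (n + 1) (by omega)).1
  simp only [Nat.add_sub_cancel] at hst
  have e : n + 1 - 2 = n - 1 := by omega
  rw [e] at hst
  obtain ⟨h0, -, h1, h3⟩ := hst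
  unfold N
  rw [Finset.mem_sdiff, h.memP (by omega), h.memP hn, h.memP (by omega)]
  constructor
  · rintro ⟨⟨hp, ha⟩, -, hb⟩
    exact ⟨⟨hp, hb⟩, fun hc => h3 p hp hb hc.2 ha⟩
  · rintro ⟨⟨hp, hb⟩, hc⟩
    exact ⟨⟨hp, h1 p hp hb fun hd => hc ⟨hp, hd⟩⟩, hp, hb⟩

theorem IsCup.union (h : IsCup a) {n : ℕ} (hn : 1 ≤ n) : P a (n + 1) = N a n ∪ N a (n + 1) := by
  ext p
  rw [Finset.mem_union, ← h.inter hn p]
  unfold N
  rw [Finset.mem_sdiff, Nat.add_sub_cancel]
  tauto

theorem IsCup.disj (h : IsCup a) {n : ℕ} (hn : 1 ≤ n) : Disjoint (N a n) (N a (n + 1)) := by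
  rw [Finset.disjoint_left]
  intro p hp hq
  unfold N at hq
  rw [Finset.mem_sdiff, Nat.add_sub_cancel] at hq
  exact hq.2 (N_sub a n hp)

/-- the conditions on a number for being chosen as `a (n + 1)`, in terms of the new primes -/
def Cand (a : ℕ → ℕ) (n : ℕ) (T : Finset ℕ) : Prop := N a n ⊆ T ∧ Disjoint (N a (n - 1)) T

/-- if a number satisfies the conditions and is not used, the next term is at most this number -/
theorem IsCup.least (h : IsCup a) {n : ℕ} (hn : 2 ≤ n) {m : ℕ} (hm : 0 < m)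
    (hu : ∀ i, 1 ≤ i → i ≤ n → a i ≠ m) (hc : Cand a n m.primeFactors) : a (n + 1) ≤ m := by
  refine (h.step (n + 1) (by omega)).2 ⟨hm, fun i h1 h2 => hu i h1 (by omega), ?_, ?_⟩
  · intro p hp hb hc'
    rw [Nat.add_sub_cancel] at hb
    have e : n + 1 - 2 = n - 1 := by omega
    rw [e] at hc'
    have hN : p ∈ N a n := by
      unfold N
      rw [Finset.mem_sdiff, h.memP (by omega), h.memP (by omega)]
      exact ⟨⟨hp, hb⟩, fun hd => hc' hd.2⟩
    exact Nat.dvd_of_mem_primeFactors (hc.1 hN)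
  · intro p hp hb hc' hd
    rw [Nat.add_sub_cancel] at hb
    have e : n + 1 - 2 = n - 1 := by omega
    rw [e] at hc'
    have hN : p ∈ N a (n - 1) := by
      rw [← h.inter (by omega) p, Nat.sub_add_cancel (by omega), h.memP (by omega),
        h.memP (by omega)]
      exact ⟨⟨hp, hb⟩, hp, hc'⟩
    exact Finset.disjoint_left.1 hc.2 hN (Nat.mem_primeFactors.2 ⟨hp, hd, hm.ne'⟩)

/-- the next term satisfies the conditions -/
theorem IsCup.cand (h : IsCup a) {n : ℕ} (hn : 2 ≤ n) : Cand a n (P a (n + 1)) := by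
  refine ⟨?_, ?_⟩
  · rw [h.union (by omega)]; exact Finset.subset_union_left
  · rw [h.union (by omega), Finset.disjoint_union_right]
    have h1 := h.disj (n := n - 1) (by omega)
    rw [Nat.sub_add_cancel (by omega)] at h1
    refine ⟨h1, ?_⟩
    rw [Finset.disjoint_left]
    intro p hp hq
    have h2 : p ∈ P a n := by
      have := h.union (n := n - 1) (by omega)
      rw [Nat.sub_add_cancel (by omega)] at this
      rw [this]
      exact Finset.mem_union_left _ hp
    unfold N at hq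
    rw [Finset.mem_sdiff, Nat.add_sub_cancel] at hq
    exact hq.2 h2

/-- a number which satisfies the conditions infinitely often is a term -/
theorem IsCup.freq (h : IsCup a) {m : ℕ} (hm : 0 < m)
    (hinf : {n | 2 ≤ n ∧ Cand a n m.primeFactors}.Infinite) : ∃ i, 1 ≤ i ∧ a i = m := by
  by_contra hne
  push Not at hne
  refine hinf ?_
  refine Set.Finite.of_finite_image (f := fun n => a (n + 1)) ((Set.finite_Iic m).subset ?_) ?_
  · rintro _ ⟨n, ⟨hn, hc⟩, rfl⟩
    exact h.least hn hm (fun i hi _ => hne i hi) hc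
  · intro i _ j _ e
    have := h.inj (i := i + 1) (j := j + 1) (by omega) (by omega) e
    omega

/-- the product of the new primes -/
def q (a : ℕ → ℕ) (n : ℕ) : ℕ := ∏ p ∈ N a n, p

theorem prime_of_mem {n p : ℕ} (hp : p ∈ N a n) : p.Prime :=
  Nat.prime_of_mem_primeFactors (N_sub a n hp)

theorem prod_pf {T : Finset ℕ} (hT : ∀ p ∈ T, p.Prime) : (∏ p ∈ T, p).primeFactors = T :=
  Nat.primeFactors_prod hT

theorem q_pf (a : ℕ → ℕ) (n : ℕ) : (q a n).primeFactors = N a n :=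
  prod_pf fun _ hp => prime_of_mem hp

theorem q_pos (a : ℕ → ℕ) (n : ℕ) : 0 < q a n :=
  Finset.prod_pos fun _ hp => (prime_of_mem hp).pos

theorem prod_dvd {T : Finset ℕ} (hT : ∀ p ∈ T, p.Prime) {m : ℕ} (h : ∀ p ∈ T, p ∣ m) :
    (∏ p ∈ T, p) ∣ m :=
  Finset.prod_primes_dvd m (fun p hp => (hT p hp).prime) h

end Pool.Agent.K7.H86.Cup
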