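import Pool.Agent.K7.H86.Cup.NewPrimes

/-!
# The cup-of-coffee sequence: existence
-/

set_option autoImplicit false

namespace Pool.Agent.K7.H86.Cup

open Classical in
/-- the least positive integer outside `U` which satisfies the two conditions after the terms
`x`, `y` -/
noncomputable def next (x y : ℕ) (U : Finset ℕ) : ℕ :=
  sInf {m : ℕ | 0 < m ∧ m ∉ U ∧ (∀ p, p.Prime → p ∣ y → ¬ p ∣ x → p ∣ m) ∧
    (∀ p, p.Prime → p ∣ y → p ∣ x → ¬ p ∣ m)}

theorem next_mem {x y : ℕ} (hy : 0 < y) (U : Finset ℕ) :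
    IsLeast {m : ℕ | 0 < m ∧ m ∉ U ∧ (∀ p, p.Prime → p ∣ y → ¬ p ∣ x → p ∣ m) ∧
    (∀ p, p.Prime → p ∣ y → p ∣ x → ¬ p ∣ m)} (next x y U) := by
  classical
  have hne : {m : ℕ | 0 < m ∧ m ∉ U ∧ (∀ p, p.Prime → p ∣ y → ¬ p ∣ x → p ∣ m) ∧
      (∀ p, p.Prime → p ∣ y → p ∣ x → ¬ p ∣ m)}.Nonempty := by
    obtain ⟨l, hl, hlp⟩ := Nat.exists_infinite_primes (y + U.sup id + 1)
    set R := y.primeFactors.filter fun p => ¬ p ∣ x with hR
    have hRp : ∀ p ∈ R, p.Prime := fun p hp =>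
      Nat.prime_of_mem_primeFactors (Finset.mem_filter.1 hp).1
    have hpos : 0 < ∏ p ∈ R, p := Finset.prod_pos fun p hp => (hRp p hp).pos
    refine ⟨(∏ p ∈ R, p) * l, Nat.mul_pos hpos hlp.pos, ?_, ?_, ?_⟩
    · intro hU
      have h1 : (∏ p ∈ R, p) * l ≤ U.sup id := Finset.le_sup (f := id) hU
      have h2 : 1 * l ≤ (∏ p ∈ R, p) * l := Nat.mul_le_mul_right l hpos
      omega
    · intro p hp hpy hpx
      exact Dvd.dvd.mul_right (Finset.dvd_prod_of_mem _ (Finset.mem_filter.2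
        ⟨Nat.mem_primeFactors.2 ⟨hp, hpy, hy.ne'⟩, hpx⟩)) l
    · intro p hp hpy hpx hd
      rcases hp.dvd_mul.1 hd with h1 | h1
      · rw [Prime.dvd_finsetProd_iff hp.prime] at h1
        obtain ⟨r, hr, hpr⟩ := h1
        have : p = r := (Nat.prime_dvd_prime_iff_eq hp (hRp r hr)).1 hpr
        subst this
        exact (Finset.mem_filter.1 hr).2 hpx
      · have : p = l := (Nat.prime_dvd_prime_iff_eq hp hlp).1 h1
        subst this
        have := Nat.le_of_dvd hy hpy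
        omega
  exact ⟨Nat.sInf_mem hne, fun m hm => Nat.sInf_le hm⟩

/-- the last two terms and the set of all terms so far -/
noncomputable def st : ℕ → ℕ × ℕ × Finset ℕ
  | 0 => (1, 2, {1, 2})
  | n + 1 => ((st n).2.1, next (st n).1 (st n).2.1 (st n).2.2,
      insert (next (st n).1 (st n).2.1 (st n).2.2) (st n).2.2)

/-- the sequence -/
noncomputable def cup (n : ℕ) : ℕ := (st (n - 1)).1

theorem st_pos (n : ℕ) : 0 < (st n).1 ∧ 0 < (st n).2.1 := by
  induction n with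
  | zero => exact ⟨by norm_num [st], by norm_num [st]⟩
  | succ n ih => exact ⟨ih.2, (next_mem ih.2 _).1.1⟩

theorem cup_succ (n : ℕ) : cup (n + 2) = (st n).2.1 := by
  show (st (n + 1)).1 = _
  rfl

theorem st_set (n m : ℕ) : m ∈ (st n).2.2 ↔ ∃ i, 1 ≤ i ∧ i ≤ n + 2 ∧ cup i = m := by
  induction n with
  | zero =>
    have e1 : cup 1 = 1 := rfl
    have e2 : cup 2 = 2 := rfl
    constructor
    · intro h
      have h' : m = 1 ∨ m = 2 := by simpa [st] using h
      rcases h' with rfl | rfl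
      · exact ⟨1, le_rfl, by norm_num, e1⟩
      · exact ⟨2, by norm_num, by norm_num, e2⟩
    · rintro ⟨i, h1, h2, rfl⟩
      have : i = 1 ∨ i = 2 := by omega
      rcases this with rfl | rfl
      · rw [e1]; simp [st]
      · rw [e2]; simp [st]
  | succ n ih =>
    have e : cup (n + 1 + 2) = next (st n).1 (st n).2.1 (st n).2.2 := by
      rw [cup_succ]
      rfl
    show m ∈ insert (next (st n).1 (st n).2.1 (st n).2.2) (st n).2.2 ↔ _
    rw [Finset.mem_insert, ih, ← e]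
    constructor
    · rintro (rfl | ⟨i, h1, h2, h3⟩)
      · exact ⟨n + 1 + 2, by omega, le_rfl, rfl⟩
      · exact ⟨i, h1, by omega, h3⟩
    · rintro ⟨i, h1, h2, h3⟩
      rcases Nat.lt_or_ge i (n + 1 + 2) with h4 | h4
      · exact Or.inr ⟨i, h1, by omega, h3⟩
      · obtain rfl : i = n + 1 + 2 := by omega
        exact Or.inl h3.symm

theorem cup_isCup : IsCup cup := by
  refine ⟨rfl, rfl, fun n hn => ?_⟩
  obtain ⟨k, rfl⟩ : ∃ k, n = k + 1 + 2 := ⟨n - 3, by omega⟩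
  have e : cup (k + 1 + 2) = next (st k).1 (st k).2.1 (st k).2.2 := by
    rw [cup_succ]
    rfl
  have e1 : cup (k + 1 + 2 - 1) = (st k).2.1 := rfl
  have e2 : cup (k + 1 + 2 - 2) = (st k).1 := rfl
  have h := next_mem (st_pos k).2 (x := (st k).1) (st k).2.2
  rw [e1, e2, e]
  have hset : ∀ m, (∀ i, 1 ≤ i → i < k + 1 + 2 → cup i ≠ m) ↔ m ∉ (st k).2.2 := by
    intro m
    rw [st_set]
    constructor
    · rintro h1 ⟨i, h2, h3, h4⟩
      exact h1 i h2 (by omega) h4
    · intro h1 i h2 h3 h4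
      exact h1 ⟨i, h2, by omega, h4⟩
  simp only [hset]
  exact h

end Pool.Agent.K7.H86.Cup
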