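import Pool.Agent.K7.H86.Cup.Basic

/-!
# The cup-of-coffee sequence: infinitely many terms without new primes
-/

set_option autoImplicit false

namespace Pool.Agent.K7.H86.Cup

variable {a : ℕ → ℕ}

/-- the product of a nonempty set of primes times a power of one of them -/
theorem pf_mul_pow {T : Finset ℕ} (hT : ∀ p ∈ T, p.Prime) {p : ℕ} (hp : p ∈ T) (k : ℕ) :
    ((∏ r ∈ T, r) * p ^ k).primeFactors = T := by
  have h0 : (∏ r ∈ T, r) ≠ 0 := (Finset.prod_pos fun r hr => (hT r hr).pos).ne'
  have h1 : p ^ k ≠ 0 := pow_ne_zero _ (hT p hp).ne_zero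
  rw [Nat.primeFactors_mul h0 h1, prod_pf hT]
  apply Finset.union_eq_left.2
  rcases k with _ | k
  · simp
  · rw [Nat.primeFactors_prime_pow (Nat.succ_ne_zero k) (hT p hp)]
    exact Finset.singleton_subset_iff.2 hp

/-- if infinitely often the new primes are the primes of `T`, then infinitely many terms have the
prime set `T` -/
theorem IsCup.inf_of_inf (h : IsCup a) {T : Finset ℕ} (hT : ∀ p ∈ T, p.Prime) (hne : T.Nonempty)
    (hinf : {n | 2 ≤ n ∧ Cand a n T}.Infinite) : {i | 1 ≤ i ∧ P a i = T}.Infinite := by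
  obtain ⟨p, hp⟩ := hne
  have hpos : ∀ k, 0 < (∏ r ∈ T, r) * p ^ k := fun k =>
    Nat.mul_pos (Finset.prod_pos fun r hr => (hT r hr).pos) (pow_pos (hT p hp).pos k)
  have key : ∀ k, ∃ i, 1 ≤ i ∧ a i = (∏ r ∈ T, r) * p ^ k := by
    intro k
    refine h.freq (hpos k) ?_
    rw [pf_mul_pow hT hp k]
    exact hinf
  choose f hf1 hf2 using key
  refine Set.infinite_of_injective_forall_mem (f := f) ?_ fun k => ⟨hf1 k, ?_⟩
  · intro i j e
    have h1 := hf2 i
    rw [e, hf2 j] at h1
    have h2 := Nat.eq_of_mul_eq_mul_left (Finset.prod_pos fun r hr => (hT r hr).pos) h1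
    exact (Nat.pow_right_injective (hT p hp).two_le h2).symm
  · unfold P
    rw [hf2 k, pf_mul_pow hT hp k]

theorem IsCup.free_inf (h : IsCup a) : {n | 2 ≤ n ∧ N a n = ∅}.Infinite := by
  intro hfin
  obtain ⟨b, hb⟩ := hfin.bddAbove
  obtain ⟨n0, hn0, hN⟩ : ∃ n0, 3 ≤ n0 ∧ ∀ n, n0 ≤ n → N a n ≠ ∅ := by
    refine ⟨b + 3, by omega, fun n hn he => ?_⟩
    have := hb (show n ∈ {n | 2 ≤ n ∧ N a n = ∅} from ⟨by omega, he⟩)
    omega
  -- Step 1
  have s1 : ∀ n, n0 + 1 ≤ n → ∃ j, 1 ≤ j ∧ j < n ∧ P a j = N a n := by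
    intro n hn
    by_cases hu : ∃ i, 1 ≤ i ∧ i ≤ n ∧ a i = q a n
    · obtain ⟨i, hi1, hi2, hi⟩ := hu
      have hP : P a i = N a n := by unfold P; rw [hi, q_pf]
      refine ⟨i, hi1, lt_of_le_of_ne hi2 fun he => ?_, hP⟩
      subst he
      have h1 := h.union (n := i - 1) (by omega)
      have h2 := h.disj (n := i - 1) (by omega)
      rw [Nat.sub_add_cancel (by omega)] at h1 h2
      rw [hP] at h1
      refine hN (i - 1) (by omega) ?_
      have h3 : N a (i - 1) ⊆ N a i := by
        conv_rhs => rw [h1]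
        exact Finset.subset_union_left
      exact Finset.disjoint_self_iff_empty _ |>.1 (h2.mono_right h3)
    · exfalso
      push Not at hu
      have hc : Cand a n (q a n).primeFactors := by
        rw [q_pf]
        refine ⟨subset_rfl, ?_⟩
        have h2 := h.disj (n := n - 1) (by omega)
        rwa [Nat.sub_add_cancel (by omega)] at h2
      have hle := h.least (n := n) (by omega) (q_pos a n) hu hc
      have hd : q a n ∣ a (n + 1) := by
        refine prod_dvd (fun p hp => prime_of_mem hp) fun p hp => ?_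
        have := (h.inter (n := n) (by omega) p).2 hp
        exact Nat.dvd_of_mem_primeFactors this.1
      have he : a (n + 1) = q a n := le_antisymm hle (Nat.le_of_dvd (h.pos (by omega)) hd)
      refine hN (n + 1) (by omega) ?_
      have hP : P a (n + 1) = N a n := by
        show (a (n + 1)).primeFactors = _
        rw [he, q_pf]
      unfold N
      rw [hP, Nat.add_sub_cancel]
      exact Finset.sdiff_eq_empty_iff_subset.2 (N_sub a n)
  -- Step 2
  set S : Finset ℕ := (Finset.range (n0 + 2)).biUnion (P a) with hS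
  have s2 : ∀ n, 1 ≤ n → N a n ⊆ S := by
    intro n
    induction n using Nat.strong_induction_on with
    | _ n ih =>
      intro hn
      rcases Nat.lt_or_ge n (n0 + 1) with hlt | hge
      · refine (N_sub a n).trans ?_
        exact Finset.subset_biUnion_of_mem (P a) (Finset.mem_range.2 (by omega))
      · obtain ⟨j, hj1, hj2, hj⟩ := s1 n hge
        rw [← hj]
        rcases Nat.lt_or_ge j 2 with hl | hl
        · obtain rfl : j = 1 := by omega
          rw [h.P_one]; exact Finset.empty_subset _
        · have h1 := h.union (n := j - 1) (by omega)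
          rw [Nat.sub_add_cancel (by omega)] at h1
          rw [h1]
          exact Finset.union_subset (ih (j - 1) (by omega) (by omega)) (ih j hj2 hj1)
  -- Step 3
  have s3 : ∀ T : Finset ℕ, {n | 2 ≤ n ∧ N a n = T}.Finite := by
    intro T
    induction T using Finset.strongInduction with
    | H T ih =>
      rcases T.eq_empty_or_nonempty with rfl | hne
      · exact hfin
      by_contra hinf
      have hinf : {n | 2 ≤ n ∧ N a n = T}.Infinite := hinf
      obtain ⟨n1, hn1⟩ := hinf.nonempty
      have hT : ∀ p ∈ T, p.Prime := by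
        intro p hp
        rw [← hn1.2] at hp
        exact prime_of_mem hp
      have h1 : {i | 1 ≤ i ∧ P a i = T}.Infinite := by
        refine h.inf_of_inf hT hne (hinf.mono ?_)
        rintro n ⟨hn, he⟩
        refine ⟨hn, he.subset, ?_⟩
        have h2 := h.disj (n := n - 1) (by omega)
        rw [Nat.sub_add_cancel (by omega), he] at h2
        exact h2
      have h2 : ({i | 1 ≤ i ∧ P a i = T} \ Set.Iic (n0 + 1)).Infinite :=
        h1.sdiff (Set.finite_Iic _)
      refine h2 ?_
      have h3 : (⋃ T' ∈ T.ssubsets, {n | 2 ≤ n ∧ N a n = T'}).Finite :=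
        Set.Finite.biUnion (Finset.finite_toSet _) fun T' hT' => ih T' (Finset.mem_ssubsets.1 hT')
      refine (h3.image fun n => n + 1).subset ?_
      rintro i ⟨⟨hi1, hi⟩, hi2⟩
      rw [Set.mem_Iic, not_le] at hi2
      have h4 := h.union (n := i - 1) (by omega)
      have h5 := h.disj (n := i - 1) (by omega)
      rw [Nat.sub_add_cancel (by omega)] at h4 h5
      refine ⟨i - 1, ?_, by simp only; omega⟩
      simp only [Set.mem_iUnion]
      refine ⟨N a (i - 1), ?_, by omega, rfl⟩
      rw [Finset.mem_ssubsets, Finset.ssubset_iff_subset_ne]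
      refine ⟨?_, fun he => ?_⟩
      · rw [← hi, h4]; exact Finset.subset_union_left
      · have h6 : N a i ⊆ N a (i - 1) := by
          rw [he, ← hi]; exact N_sub a i
        exact hN i (by omega) ((Finset.disjoint_self_iff_empty _).1 (h5.mono_left h6))
  -- Step 4
  have s4 : (⋃ T ∈ S.powerset, {n | 2 ≤ n ∧ N a n = T}).Finite :=
    Set.Finite.biUnion (Finset.finite_toSet _) fun T _ => s3 T
  refine (Set.Ici_infinite 2) (s4.subset ?_)
  intro n hn
  rw [Set.mem_Ici] at hn
  simp only [Set.mem_iUnion]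
  exact ⟨N a n, Finset.mem_powerset.2 (s2 n (by omega)), hn, rfl⟩

end Pool.Agent.K7.H86.Cup
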