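import Pool.Agent.K7.H86.Cup.Free

/-!
# The cup-of-coffee sequence: the first multiples of the primes
-/

set_option autoImplicit false

namespace Pool.Agent.K7.H86.Cup

variable {a : ℕ → ℕ}

/-- every prime divides a term -/
theorem IsCup.prime_dvd (h : IsCup a) {l : ℕ} (hl : l.Prime) : ∃ n, 1 ≤ n ∧ l ∣ a n := by
  by_contra hne
  push Not at hne
  obtain ⟨i, hi, hi'⟩ := h.freq hl.pos (h.free_inf.mono (by
    rintro n ⟨hn, he⟩
    refine ⟨hn, ?_, ?_⟩
    · rw [he]; exact Finset.empty_subset _
    · rw [hl.primeFactors, Finset.disjoint_singleton_right]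
      intro hm
      exact hne (n - 1) (by omega) (Nat.dvd_of_mem_primeFactors (N_sub a _ hm))))
  exact hne i hi (by rw [hi'])

/-- the first multiple of a prime `l ≥ 3`: it is `q l` with `q` the product of the new primes of the
term before; if `q ≠ 1` the next term is `l` -/
theorem IsCup.first (h : IsCup a) {l : ℕ} (hl : l.Prime) (h3 : 3 ≤ l) :
    ∃ j, 3 ≤ j ∧ (∀ i, 1 ≤ i → i < j → ¬ l ∣ a i) ∧ a j = q a (j - 1) * l ∧ N a j = {l} ∧
      ((N a (j - 1) ≠ ∅ ∧ a j ≠ l ∧ a (j + 1) = l ∧ N a (j + 1) = ∅) ∨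
        (N a (j - 1) = ∅ ∧ a j = l ∧ a (j + 1) = 2 * l ∧ N a (j + 1) = {2})) := by
  classical
  have hex := h.prime_dvd hl
  set j := Nat.find hex with hj
  obtain ⟨hj1, hjd⟩ := Nat.find_spec hex
  rw [← hj] at hj1 hjd
  have hmin : ∀ i, 1 ≤ i → i < j → ¬ l ∣ a i := fun i h1 h2 h3 => Nat.find_min hex h2 ⟨h1, h3⟩
  have hj3 : 3 ≤ j := by
    by_contra hlt
    have : j = 1 ∨ j = 2 := by omega
    rcases this with e | e
    · rw [e, h.one] at hjd
      exact hl.one_lt.ne' (Nat.dvd_one.1 hjd)
    · rw [e, h.two] at hjd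
      have := Nat.le_of_dvd (by norm_num) hjd
      omega
  have hnN : ∀ i, 1 ≤ i → i < j → l ∉ N a i := fun i h1 h2 hm =>
    hmin i h1 h2 (Nat.dvd_of_mem_primeFactors (N_sub a _ hm))
  have hq0 : q a (j - 1) ≠ 0 := (q_pos a _).ne'
  have hpf : (q a (j - 1) * l).primeFactors = N a (j - 1) ∪ {l} := by
    rw [Nat.primeFactors_mul hq0 hl.ne_zero, q_pf, hl.primeFactors]
  have hu := h.union (n := j - 1) (by omega)
  have hd := h.disj (n := j - 1) (by omega)
  rw [Nat.sub_add_cancel hj1] at hu hd
  have haj : a j = q a (j - 1) * l := by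
    have hle : a (j - 1 + 1) ≤ q a (j - 1) * l := by
      refine h.least (by omega) (Nat.mul_pos (q_pos a _) hl.pos) ?_ ⟨?_, ?_⟩
      · intro i h1 h2 he
        exact hmin i h1 (by omega) (by rw [he]; exact dvd_mul_left _ _)
      · rw [hpf]; exact Finset.subset_union_left
      · rw [hpf, Finset.disjoint_union_right, Finset.disjoint_singleton_right]
        have h5 := h.disj (n := j - 2) (by omega)
        have e : j - 2 + 1 = j - 1 := by omega
        rw [e] at h5
        have e' : j - 1 - 1 = j - 2 := by omega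
        rw [e']
        exact ⟨h5, hnN (j - 2) (by omega) (by omega)⟩
    rw [Nat.sub_add_cancel hj1] at hle
    have hdv : q a (j - 1) * l ∣ a j := by
      refine Nat.Coprime.mul_dvd_of_dvd_of_dvd ?_ ?_ hjd
      · rw [Nat.coprime_comm, hl.coprime_iff_not_dvd]
        intro hdd
        have : l ∈ (q a (j - 1)).primeFactors := Nat.mem_primeFactors.2 ⟨hl, hdd, hq0⟩
        rw [q_pf] at this
        exact hnN (j - 1) (by omega) (by omega) this
      · refine prod_dvd (fun p hp => prime_of_mem hp) fun p hp => ?_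
        have : p ∈ P a j := by rw [hu]; exact Finset.mem_union_left _ hp
        exact Nat.dvd_of_mem_primeFactors this
    exact le_antisymm hle (Nat.le_of_dvd (h.pos hj1) hdv)
  have hlN : l ∉ N a (j - 1) := hnN (j - 1) (by omega) (by omega)
  have hPj : P a j = N a (j - 1) ∪ {l} := by
    show (a j).primeFactors = _
    rw [haj, hpf]
  have hNj : N a j = {l} := by
    apply Finset.Subset.antisymm
    · intro p hp
      have h6 : p ∈ P a j := N_sub a j hp
      rw [hPj, Finset.mem_union] at h6
      rcases h6 with h6 | h6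
      · exact absurd hp (Finset.disjoint_left.1 hd h6)
      · exact h6
    · rw [Finset.singleton_subset_iff]
      have h6 : l ∈ P a j := by rw [hPj]; simp
      rw [hu, Finset.mem_union] at h6
      exact h6.resolve_left hlN
  have hld : l ∣ a (j + 1) := by
    have := (h.inter (n := j) (by omega) l).2 (by rw [hNj]; simp)
    exact Nat.dvd_of_mem_primeFactors this.1
  refine ⟨j, hj3, hmin, haj, hNj, ?_⟩
  by_cases hE : N a (j - 1) = ∅
  · right
    have hq1 : q a (j - 1) = 1 := by unfold q; rw [hE]; simp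
    rw [hq1, one_mul] at haj
    have h2l : (2 * l).primeFactors = {2} ∪ {l} := by
      rw [Nat.primeFactors_mul (by norm_num) hl.ne_zero, Nat.prime_two.primeFactors,
        hl.primeFactors]
    have hle : a (j + 1) ≤ 2 * l := by
      refine h.least (by omega) (by omega) ?_ ⟨?_, ?_⟩
      · intro i h1 h2 he
        rcases Nat.lt_or_ge i j with h7 | h7
        · exact hmin i h1 h7 (by rw [he]; exact dvd_mul_left _ _)
        · obtain rfl : i = j := by omega
          omega
      · rw [hNj, h2l]; exact Finset.subset_union_right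
      · rw [hE]; exact Finset.disjoint_empty_left _
    have hne : a (j + 1) ≠ l := by
      rw [← haj]
      exact (h.ne (by omega) (by omega)).symm
    have he : a (j + 1) = 2 * l := by
      obtain ⟨c, hc⟩ := hld
      have h8 := h.pos (n := j + 1) (by omega)
      rw [hc] at hle hne h8 ⊢
      have hc2 : c ≤ 2 := by
        by_contra hgt
        have : 3 ≤ c := by omega
        nlinarith [hl.pos]
      interval_cases c
      · simp at h8
      · simp at hne
      · ring
    refine ⟨hE, haj, he, ?_⟩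
    unfold N P
    rw [Nat.add_sub_cancel, he, haj, h2l, hl.primeFactors]
    ext p
    simp only [Finset.mem_sdiff, Finset.mem_union, Finset.mem_singleton]
    constructor
    · rintro ⟨h9 | h9, h10⟩
      · exact h9
      · exact absurd h9 h10
    · intro h9
      exact ⟨Or.inl h9, by omega⟩
  · left
    have hq2 : q a (j - 1) ≠ 1 := by
      intro hq1
      apply hE
      rw [← q_pf, hq1]; simp
    have hjl : a j ≠ l := by
      rw [haj]
      intro he
      exact hq2 (Nat.eq_of_mul_eq_mul_right hl.pos (by rw [he, one_mul]))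
    have hle : a (j + 1) ≤ l := by
      refine h.least (by omega) hl.pos ?_ ⟨?_, ?_⟩
      · intro i h1 h2 he
        rcases Nat.lt_or_ge i j with h7 | h7
        · exact hmin i h1 h7 (by rw [he])
        · obtain rfl : i = j := by omega
          exact hjl he
      · rw [hNj, hl.primeFactors]
      · rw [hl.primeFactors, Finset.disjoint_singleton_right]; exact hlN
    have he : a (j + 1) = l := le_antisymm hle (Nat.le_of_dvd (h.pos (by omega)) hld)
    refine ⟨hE, hjl, he, ?_⟩
    unfold N
    rw [Nat.add_sub_cancel, Finset.sdiff_eq_empty_iff_subset, hPj]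
    show (a (j + 1)).primeFactors ⊆ _
    rw [he, hl.primeFactors]
    exact Finset.subset_union_right

/-- if infinitely many primes of a set `L` have a first multiple after which the two conditions are
harmless for the numbers with prime set `T`, then these conditions hold infinitely often -/
theorem IsCup.inf_cand (h : IsCup a) {L : Set ℕ} (hL : L.Infinite) {T : Finset ℕ}
    (hLT : ∀ l ∈ L, l ∉ T ∧ ∃ j, 1 ≤ j ∧ N a j = {l} ∧ N a (j + 1) ⊆ T) :
    {n | 2 ≤ n ∧ Cand a n T}.Infinite := by
  have hex : ∀ l : L, ∃ j, 1 ≤ j ∧ N a j = {(l : ℕ)} ∧ N a (j + 1) ⊆ T := fun l => (hLT l l.2).2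
  choose f hf using hex
  have : Infinite L := hL.to_subtype
  refine Set.infinite_of_injective_forall_mem (f := fun l : L => f l + 1) ?_ fun l => ?_
  · intro l l' e
    have e' : f l = f l' := by simpa using e
    have h1 := (hf l).2.1
    rw [e', (hf l').2.1] at h1
    exact Subtype.ext (Finset.singleton_injective h1).symm
  · refine ⟨by have := (hf l).1; omega, (hf l).2.2, ?_⟩
    rw [Nat.add_sub_cancel, (hf l).2.1, Finset.disjoint_singleton_left]
    exact (hLT l l.2).1

theorem inf_primes (b : ℕ) : {l : ℕ | l.Prime ∧ b < l}.Infinite := by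
  have := Nat.infinite_setOfPred_prime.sdiff (Set.finite_Iic b)
  refine this.mono ?_
  rintro l ⟨h1, h2⟩
  rw [Set.mem_Iic, not_le] at h2
  exact ⟨h1, h2⟩

/-- every even number is a term -/
theorem IsCup.even (h : IsCup a) {m : ℕ} (hm : 0 < m) (he : 2 ∣ m) : ∃ i, 1 ≤ i ∧ a i = m := by
  refine h.freq hm (h.inf_cand (inf_primes (m + 2)) ?_)
  rintro l ⟨hl, hlm⟩
  refine ⟨fun hmem => ?_, ?_⟩
  · have := Nat.le_of_dvd hm (Nat.dvd_of_mem_primeFactors hmem)
    omega
  · obtain ⟨j, hj, -, -, h1, h2⟩ := h.first hl (by omega)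
    refine ⟨j, by omega, h1, ?_⟩
    rcases h2 with ⟨-, -, -, h3⟩ | ⟨-, -, -, h3⟩
    · rw [h3]; exact Finset.empty_subset _
    · rw [h3, Finset.singleton_subset_iff]
      exact Nat.mem_primeFactors.2 ⟨Nat.prime_two, he, hm.ne'⟩

/-- every prime is a term -/
theorem IsCup.prime (h : IsCup a) {l : ℕ} (hl : l.Prime) : ∃ i, 1 ≤ i ∧ a i = l := by
  rcases hl.two_le.eq_or_lt with e | h3
  · exact ⟨2, by norm_num, by rw [h.two, e]⟩
  · obtain ⟨j, hj, -, -, -, h2⟩ := h.first hl h3
    rcases h2 with ⟨-, -, h3, -⟩ | ⟨-, h3, -, -⟩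
    · exact ⟨j + 1, by omega, h3⟩
    · exact ⟨j, by omega, h3⟩

/-- if infinitely many primes do not appear themselves as their first multiple, then every positive
integer is a term -/
theorem IsCup.surj (h : IsCup a) (hinf : {l : ℕ | l.Prime ∧ ∃ j, 1 ≤ j ∧ l ∣ a j ∧ a j ≠ l ∧
      ∀ i, 1 ≤ i → i < j → ¬ l ∣ a i}.Infinite) {m : ℕ} (hm : 0 < m) :
    ∃ i, 1 ≤ i ∧ a i = m := by
  refine h.freq hm (h.inf_cand (hinf.sdiff (Set.finite_Iic (m + 2))) ?_)
  rintro l ⟨⟨hl, j, hj1, hjd, hjn, hjm⟩, hlm⟩
  rw [Set.mem_Iic, not_le] at hlm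
  refine ⟨fun hmem => ?_, ?_⟩
  · have := Nat.le_of_dvd hm (Nat.dvd_of_mem_primeFactors hmem)
    omega
  · obtain ⟨j', hj', h0, h4, h1, h2⟩ := h.first hl (by omega)
    have hjj : j' = j := by
      rcases lt_trichotomy j' j with hlt | heq | hgt
      · exact absurd (by rw [h4]; exact dvd_mul_left _ _) (hjm j' (by omega) hlt)
      · exact heq
      · exact absurd hjd (h0 j hj1 hgt)
    subst hjj
    refine ⟨j', by omega, h1, ?_⟩
    rcases h2 with ⟨-, -, -, h3⟩ | ⟨-, h3, -, -⟩
    · rw [h3]; exact Finset.empty_subset _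
    · exact absurd h3 hjn

/-- all or only finitely many of the numbers with the prime set `T` are terms -/
theorem IsCup.all_or_fin (h : IsCup a) (T : Finset ℕ) :
    (∀ m, 0 < m → m.primeFactors = T → ∃ i, 1 ≤ i ∧ a i = m) ∨
      {m | m.primeFactors = T ∧ ∃ i, 1 ≤ i ∧ a i = m}.Finite := by
  by_cases hinf : {n | 2 ≤ n ∧ Cand a n T}.Infinite
  · left
    intro m hm he
    exact h.freq hm (by rw [he]; exact hinf)
  · right
    rw [Set.not_infinite] at hinf
    refine ((hinf.image fun n => a (n + 1)).union (Set.toFinite {a 1, a 2})).subset ?_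
    rintro m ⟨he, i, hi, rfl⟩
    rcases Nat.lt_or_ge i 3 with h3 | h3
    · right
      have : i = 1 ∨ i = 2 := by omega
      rcases this with rfl | rfl
      · exact Or.inl rfl
      · exact Or.inr rfl
    · left
      refine ⟨i - 1, ⟨by omega, ?_⟩, ?_⟩
      · have h1 := h.cand (n := i - 1) (by omega)
        rw [Nat.sub_add_cancel (by omega)] at h1
        have h2 : P a i = T := he
        rwa [h2] at h1
      · simp only
        rw [Nat.sub_add_cancel (by omega)]

end Pool.Agent.K7.H86.Cup
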